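import Pool.Agent.Helper91.MC9.Spec

set_option autoImplicit false

namespace Pool.Agent.Helper71.MC9.COPF

open Pool.Agent.Helper91.MC9

theorem main (hSPLIT : S_SPLIT) (hEMB : S_EMB) : S_COPF := by
  intro ℋ hℋ V m G hG H hH hmin
  obtain ⟨i, hi⟩ := hSPLIT (Fin H.1) (Fin m × V) (Fin m) H.2 (copies m G) Prod.fst (hℋ H hH)
    (fun x y h => h.1) hmin
  refine hG H hH (hEMB _ _ _ H.2 ((copies m G).induce {x | x.1 = i}) G (fun x => x.1.2) ?_ ?_ hi)
  · rintro ⟨⟨a, x⟩, hx⟩ ⟨⟨b, y⟩, hy⟩ h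
    simp only [Set.mem_setOf_eq] at hx hy h
    subst hx
    subst hy
    subst h
    rfl
  · rintro x y h
    exact h.2

end Pool.Agent.Helper71.MC9.COPF
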